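import Pool.Agent.BEN.StmtsB

/-!
# Squad BEN (MP_be01ff_an), row JST: the structures `Jax` and `Jlk` for the spaces `L^(2s/j)`.
-/

namespace Pool.Agent.BEN.H12

open Set Filter Topology MeasureTheory
open scoped InnerProductSpace ENNReal
open Pool.Agent.BE01 Pool.Agent.BEL Pool.Agent.BEF Pool.Agent.BEH

noncomputable section

variable {T : Type} [MeasurableSpace T] {μ : Measure T}

/-- The norm of `L^∞` bounds the function, for an exponent which is only propositionally `∞`. -/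
theorem ae_le_norm (p : ℝ≥0∞) [Fact (1 ≤ p)] (hp : p = ∞) (f : Lp ℝ p μ) :
    ∀ᵐ z ∂μ, |f z| ≤ ‖f‖ := by
  subst hp
  have h1 : ∀ᵐ z ∂μ, ‖f z‖ₑ ≤ eLpNormEssSup f μ := enorm_ae_le_eLpNormEssSup _ _
  have h2 : eLpNormEssSup f μ = ENNReal.ofReal ‖f‖ := by
    rw [Lp.norm_def, ENNReal.ofReal_toReal (Lp.eLpNorm_ne_top f), eLpNorm_exponent_top]
  filter_upwards [h1] with z hz
  rw [h2, ← ofReal_norm, ENNReal.ofReal_le_ofReal_iff (norm_nonneg _)] at hz
  simpa [Real.norm_eq_abs] using hz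

/-- A bounded family of functions, seen in `L^∞`. -/
theorem exists_emb (p : ℝ≥0∞) [Fact (1 ≤ p)] (hp : p = ∞) {X : Type} [NormedCommRing X]
    [NormedAlgebra ℝ X] (W : Wx X (Lp ℝ 2 μ)) (hX : Xok W) :
    ∃ E : X →L[ℝ] Lp ℝ p μ, (∀ x, E x =ᵐ[μ] W.e x) ∧ ∀ x, ‖E x‖ ≤ ‖x‖ := by
  subst hp
  have hmem : ∀ x : X, MemLp (W.e x : T → ℝ) ∞ μ := fun x =>
    memLp_top_of_bound (Lp.aestronglyMeasurable _) ‖x‖ (by
      filter_upwards [hX.le x] with z hz
      simpa [Real.norm_eq_abs] using hz)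
  have hle : ∀ x : X, ‖(hmem x).toLp (W.e x : T → ℝ)‖ ≤ ‖x‖ := by
    intro x
    rw [Lp.norm_toLp]
    refine ENNReal.toReal_le_of_le_ofReal (norm_nonneg _) ?_
    rw [eLpNorm_exponent_top]
    refine eLpNormEssSup_le_of_ae_bound ?_
    filter_upwards [hX.le x] with z hz
    simpa [Real.norm_eq_abs] using hz
  let E0 : X →ₗ[ℝ] Lp ℝ ∞ μ :=
    { toFun := fun x => (hmem x).toLp (W.e x : T → ℝ)
      map_add' := by
        intro x y
        apply Lp.ext
        filter_upwards [(hmem (x + y)).coeFn_toLp, (hmem x).coeFn_toLp, (hmem y).coeFn_toLp,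
          Lp.coeFn_add ((hmem x).toLp (W.e x : T → ℝ)) ((hmem y).toLp (W.e y : T → ℝ)),
          Lp.coeFn_add (W.e x) (W.e y)] with z h1 h2 h3 h4 h5
        rw [h1, h4, Pi.add_apply, h2, h3, map_add, h5, Pi.add_apply]
      map_smul' := by
        intro c x
        apply Lp.ext
        filter_upwards [(hmem (c • x)).coeFn_toLp, (hmem x).coeFn_toLp,
          Lp.coeFn_smul c ((hmem x).toLp (W.e x : T → ℝ)),
          Lp.coeFn_smul c (W.e x)] with z h1 h2 h4 h5
        rw [h1, RingHom.id_apply, h4, Pi.smul_apply, h2, map_smul, h5, Pi.smul_apply] }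
  refine ⟨E0.mkContinuous 1 (fun x => by rw [one_mul]; exact hle x), fun x => ?_, fun x => ?_⟩
  · exact (hmem x).coeFn_toLp
  · exact hle x

/-- Row JST. -/
theorem jst (hq : QefStmt) (hi : InqStmt) (hm : JmuStmt) (hc : CumStmt) (hu : CuaStmt) :
    JstStmt := by
  intro T _ μ _ s V X _ _ W hs hV hX
  obtain ⟨mul, hmul, hmul_le⟩ := hm T μ s hs
  obtain ⟨hq0, hqs, hq2, hqr, hqa, hqh⟩ := hq s hs
  -- the inclusions
  have hinc : ∀ j : Fin (s + 1), ∃ ι : Lp ℝ (qe s (j : ℕ)) μ →L[ℝ] Lp ℝ 2 μ,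
      (∀ y, ι y =ᵐ[μ] y) := by
    intro j
    obtain ⟨ι, h1, -, -⟩ := hi T μ (qe s (j : ℕ)) 2 V (hq2 _ (Nat.lt_succ_iff.mp j.2)).1 hV
    exact ⟨ι, h1⟩
  choose inc hinc1 using hinc
  obtain ⟨E0, hE0, hE0n⟩ := exists_emb (μ := μ) (qe s 0) hq0 W hX
  have hem : ∀ j : Fin (s + 1), ∃ E : X →L[ℝ] Lp ℝ (qe s (j : ℕ)) μ,
      (∀ x, E x =ᵐ[μ] W.e x) ∧ ∀ x, ‖E x‖ ≤ max 1 V * ‖x‖ := by
    intro j
    obtain ⟨ι, h1, -, h3⟩ := hi T μ (qe s 0) (qe s (j : ℕ)) V
      (hqa 0 _ (Nat.zero_le _) (Nat.lt_succ_iff.mp j.2)) hV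
    refine ⟨ι.comp E0, fun x => ?_, fun x => ?_⟩
    · exact (h1 (E0 x)).trans (hE0 x)
    · refine (h3 (E0 x)).trans ?_
      exact mul_le_mul_of_nonneg_left (hE0n x) (le_trans zero_le_one (le_max_left _ _))
  choose em hem1 hem2 using hem
  -- the projections
  let pr : ℕ → Jt s μ →L[ℝ] Lp ℝ 2 μ := fun j =>
    if h : j < s + 1 then
      (inc ⟨j, h⟩).comp (ContinuousLinearMap.proj (R := ℝ)
        (φ := fun j : Fin (s + 1) => Lp ℝ (qe s (j : ℕ)) μ) (⟨j, h⟩ : Fin (s + 1)))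
    else 0
  have hpr : ∀ (j : ℕ) (h : j < s + 1) (x : Jt s μ), pr j x = inc ⟨j, h⟩ (x ⟨j, h⟩) := by
    intro j h x
    simp only [pr, dif_pos h]
    rfl
  have hprc : ∀ (x : Jt s μ), ∀ j ≤ s, pr j x =ᵐ[μ] cmp x j := by
    intro x j hj
    have h : j < s + 1 := Nat.lt_succ_iff.mpr hj
    rw [hpr j h x]
    simp only [cmp, dif_pos h]
    exact hinc1 ⟨j, h⟩ _
  -- the component in `X`
  have hs0 : 0 < s + 1 := Nat.succ_pos s
  have hbd : ∀ x : Jt s μ, ∀ᵐ z ∂μ, |pr 0 x z| ≤ ‖x‖ := by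
    intro x
    have h1 := ae_le_norm (μ := μ) (qe s 0) hq0 (x ⟨0, hs0⟩)
    have h2 : ‖x ⟨0, hs0⟩‖ ≤ ‖x‖ := norm_le_pi_norm x _
    have h3 := hinc1 ⟨0, hs0⟩ (x ⟨0, hs0⟩)
    rw [hpr 0 hs0 x]
    filter_upwards [h1, h3] with z hz1 hz3
    rw [hz3]
    exact hz1.trans h2
  have hlift : ∀ x : Jt s μ, ∃ y : X, W.e y = pr 0 x ∧ ‖y‖ ≤ ‖x‖ := fun x =>
    hX.lift (pr 0 x) ‖x‖ (norm_nonneg _) (hbd x)
  choose x0f hx01 hx02 using hlift
  let x0l : Jt s μ →ₗ[ℝ] X :=
    { toFun := x0f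
      map_add' := fun x y => W.e_inj (by rw [map_add, hx01, hx01, hx01, map_add])
      map_smul' := fun c x => W.e_inj (by
        rw [RingHom.id_apply, map_smul, hx01, hx01, map_smul]) }
  let x0 : Jt s μ →L[ℝ] X := x0l.mkContinuous 1 (fun x => by rw [one_mul]; exact hx02 x)
  have hx0 : ∀ x, W.e (x0 x) = pr 0 x := hx01
  -- the structure `Jax`
  let A : Jax (Jt s μ) :=
    { mul := mul
      nmul := 2 ^ s
      nmul_pos := one_le_pow₀ (by norm_num)
      mul_le := hmul_le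
      Cu := Cuj s μ
      cont := fun t0 x h => h.1
      congr := fun t0 x y h1 h2 => (hu T μ s t0).2.1 x y h1 h2
      mono := fun t0 t1 x h1 h2 => (hu T μ s t0).2.2.1 t1 x h1 h2
      zero := fun t0 => (hu T μ s t0).1
      add := fun t0 x y h1 h2 => (hu T μ s t0).2.2.2.1 x y h1 h2
      smul := fun t0 c x h => (hu T μ s t0).2.2.2.2.1 c x h
      mul_mem := fun t0 x y h1 h2 => hc T μ s mul hs hmul t0 x y h1 h2
      lim := fun t0 x y h1 h2 => (hu T μ s t0).2.2.2.2.2 x y h1 h2 }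
  -- the inclusion of `X` in the jets
  let jt : (ℕ → X) → Jt s μ := fun w j => em j (w (j : ℕ))
  have hprjt : ∀ w : ℕ → X, ∀ j ≤ s, pr j (jt w) = W.e (w j) := by
    intro w j hj
    apply Lp.ext
    have h : j < s + 1 := Nat.lt_succ_iff.mpr hj
    rw [hpr j h]
    exact (hinc1 ⟨j, h⟩ _).trans (hem1 ⟨j, h⟩ (w j))
  let L : Jlk W s A (max 1 V) :=
    { pr := pr
      x0 := x0
      e_x0 := hx0
      x0_mul := by
        intro x y
        apply W.e_inj
        apply Lp.ext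
        rw [hx0]
        have h1 : pr 0 (mul x y) =ᵐ[μ] cmp (mul x y) 0 := hprc (mul x y) 0 (Nat.zero_le _)
        have h2 := hmul x y 0 (Nat.zero_le _)
        have h3 := hX.mul (x0 x) (x0 y)
        rw [hx0, hx0] at h3
        have h4 := hprc x 0 (Nat.zero_le _)
        have h5 := hprc y 0 (Nat.zero_le _)
        change pr 0 (mul x y) =ᵐ[μ] _
        filter_upwards [h1, h2, h3, h4, h5] with z g1 g2 g3 g4 g5
        rw [g1, g2, g3, g4, g5]
        simp
      der := by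
        intro t0 x hx j hj t ht
        have h0 : j < s + 1 := Nat.lt_succ_of_lt hj
        have h1 : j + 1 < s + 1 := Nat.succ_lt_succ hj
        obtain ⟨ι, hι, -, -⟩ := hi T μ (qe s j) (qe s (j + 1)) V
          (hqa j (j + 1) (Nat.le_succ j) hj) hV
        have hd := hx.2 ⟨j, hj⟩ ι hι t ht
        have hd2 := (inc ⟨j + 1, h1⟩).hasFDerivAt.comp_hasDerivAt t hd
        have e1 : pr (j + 1) (x t) = inc ⟨j + 1, h1⟩ (x t (Fin.succ ⟨j, hj⟩)) :=
          hpr (j + 1) h1 (x t)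
        have e2 : (fun r => pr j (x r)) =
            fun r => inc ⟨j + 1, h1⟩ (ι (x r (Fin.castSucc ⟨j, hj⟩))) := by
          funext r
          rw [hpr j h0]
          apply Lp.ext
          exact (hinc1 ⟨j, h0⟩ _).trans ((hinc1 ⟨j + 1, h1⟩ _).trans (hι _)).symm
        rw [e1, e2]
        exact hd2
      jt := jt
      x0_jt := fun w => W.e_inj (by rw [hx0]; exact hprjt w 0 (Nat.zero_le _))
      pr_jt := hprjt
      jt_le := by
        intro w M hM hw
        refine (pi_norm_le_iff_of_nonneg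
          (mul_nonneg (le_trans zero_le_one (le_max_left _ _)) hM)).mpr ?_
        intro j
        refine (hem2 j (w (j : ℕ))).trans ?_
        exact mul_le_mul_of_nonneg_left (hw _ (Nat.lt_succ_iff.mp j.2))
          (le_trans zero_le_one (le_max_left _ _))
      cu_jt := by
        intro t0 w hw hws
        refine ⟨?_, ?_⟩
        · refine continuousOn_pi.mpr ?_
          intro j
          have hcj : ContinuousOn (w (j : ℕ)) (Ioi t0) := by
            rcases Nat.lt_or_ge (j : ℕ) s with hj | hj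
            · exact fun t ht => (hw _ hj t ht).continuousAt.continuousWithinAt
            · have : (j : ℕ) = s := le_antisymm (Nat.lt_succ_iff.mp j.2) hj
              rw [this]
              exact hws
          exact (em j).continuous.comp_continuousOn hcj
        · intro j ι hι t ht
          have hd := hw (j : ℕ) j.2 t ht
          have hd2 := (ι.comp (em j.castSucc)).hasFDerivAt.comp_hasDerivAt t hd
          have e1 : (ι.comp (em j.castSucc)) (w ((j : ℕ) + 1) t) =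
              jt (fun k => w k t) j.succ := by
            apply Lp.ext
            exact (hι _).trans ((hem1 j.castSucc _).trans (hem1 j.succ (w ((j : ℕ) + 1) t)).symm)
          rw [e1] at hd2
          exact hd2 }
  exact ⟨A, L, rfl, fun t0 x => Iff.rfl, hprc⟩

end

end Pool.Agent.BEN.H12
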